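import Mathlib

set_option autoImplicit false
open scoped ContDiff Topology
open Filter Set

namespace Pool.Agent.H914R3.Flat

/-- The coefficients of `∏_{j ≥ 0} (1 - 2^{-j} x)`. -/
noncomputable def a : ℕ → ℝ
  | 0 => 1
  | (k + 1) => -(2 / (2 ^ (k + 1) - 1)) * a k

theorem a_succ (k : ℕ) : a (k + 1) = -(2 / (2 ^ (k + 1) - 1)) * a k := rfl

theorem pow_sub_one_pos (k : ℕ) : (0:ℝ) < 2 ^ (k + 1) - 1 := by
  have : (1:ℝ) < 2 ^ (k+1) := one_lt_pow₀ (by norm_num) (by omega)
  linarith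

theorem a_ne (k : ℕ) : a k ≠ 0 := by
  induction k with
  | zero => simp [a]
  | succ k ih =>
    rw [a_succ]
    exact mul_ne_zero (neg_ne_zero.2 (div_ne_zero two_ne_zero (pow_sub_one_pos k).ne')) ih

theorem summable_abs (x : ℝ) (hx : 0 < x) : Summable (fun k => |a k| * x ^ k) := by
  apply summable_of_ratio_test_tendsto_lt_one (l := 0) (by norm_num)
  · exact Eventually.of_forall fun k => mul_ne_zero (abs_ne_zero.2 (a_ne k)) (pow_ne_zero _ hx.ne')
  · have h : (fun n => ‖|a (n+1)| * x^(n+1)‖ / ‖|a n| * x ^ n‖)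
        = fun n => (2 * x) / (2^(n+1) - 1) := by
      funext n
      have h1 := pow_sub_one_pos n
      have h2 : 0 < |a n| := abs_pos.2 (a_ne n)
      have h3 : 0 < x ^ n := pow_pos hx n
      rw [a_succ, Real.norm_of_nonneg (by positivity), Real.norm_of_nonneg (by positivity),
        abs_mul, abs_neg, abs_of_pos (div_pos two_pos h1), pow_succ x n]
      field_simp
    rw [h]
    apply Tendsto.const_div_atTop
    apply tendsto_atTop_add_const_right
    exact (tendsto_pow_atTop_atTop_of_one_lt (by norm_num : (1:ℝ) < 2)).comp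
      (tendsto_add_atTop_nat 1)

theorem summable_a (x : ℝ) (hx : 0 < x) : Summable (fun k => a k * x ^ k) := by
  refine Summable.of_norm ((summable_abs x hx).congr fun k => ?_)
  rw [norm_mul, norm_pow, Real.norm_of_nonneg hx.le, Real.norm_eq_abs]

noncomputable def A (x : ℝ) : ℝ := ∑' k, a k * x ^ k

theorem A_eq (x : ℝ) (hx : 0 < x) : A x = (1 - x) * A (x / 2) := by
  have hs := summable_a x hx
  have hs2 := summable_a (x / 2) (by positivity)
  have h1 : A x - A (x / 2) = ∑' k, (a k * x ^ k - a k * (x / 2) ^ k) := (hs.tsum_sub hs2).symm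
  have h2 : ∑' k, (a k * x ^ k - a k * (x / 2) ^ k)
      = ∑' k, (a (k + 1) * x ^ (k + 1) - a (k + 1) * (x / 2) ^ (k + 1)) := by
    rw [(hs.sub hs2).tsum_eq_zero_add]
    simp
  have h3 : ∀ k, a (k + 1) * x ^ (k + 1) - a (k + 1) * (x / 2) ^ (k + 1)
      = -x * (a k * (x / 2) ^ k) := by
    intro k
    have h4 := pow_sub_one_pos k
    rw [a_succ, div_pow, div_pow]
    field_simp
    ring
  rw [tsum_congr h3, tsum_mul_left] at h2
  have h5 : A x - A (x / 2) = -x * A (x / 2) := h1.trans h2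
  linarith

theorem A_pow (j : ℕ) : A (2 ^ j) = 0 := by
  induction j with
  | zero => rw [pow_zero, A_eq 1 one_pos]; ring
  | succ j ih =>
    rw [A_eq _ (by positivity)]
    have : (2:ℝ) ^ (j + 1) / 2 = 2 ^ j := by rw [pow_succ]; field_simp
    rw [this, ih, mul_zero]

/-! ### the building block -/

noncomputable def θ (x : ℝ) : ℝ := Real.exp (-1 * x) * Real.smoothTransition (x + 1)

theorem θ_contDiff : ContDiff ℝ ∞ θ := by
  unfold θ
  exact (Real.contDiff_exp.comp (contDiff_const.mul contDiff_id)).mul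
    (Real.smoothTransition.contDiff.comp (contDiff_id.add contDiff_const))

theorem θ_bdd (n : ℕ) : ∃ C : ℝ, ∀ x, ‖iteratedFDeriv ℝ n θ x‖ ≤ C := by
  have hc : Continuous fun x => ‖iteratedFDeriv ℝ n θ x‖ :=
    (θ_contDiff.continuous_iteratedFDeriv (by exact_mod_cast le_top)).norm
  obtain ⟨C, hC⟩ := (isCompact_Icc (a := (-2:ℝ)) (b := 1)).exists_bound_of_continuousOn
    hc.continuousOn
  refine ⟨max C 1, fun x => ?_⟩
  rcases lt_or_ge x (-1) with h | h
  · have h1 : θ =ᶠ[𝓝 x] fun _ => 0 := by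
      filter_upwards [Iio_mem_nhds h] with y hy
      have hy : y < -1 := hy
      rw [θ, Real.smoothTransition.zero_of_nonpos (by linarith), mul_zero]
    rw [(h1.iteratedFDeriv ℝ n).eq_of_nhds]
    refine le_trans ?_ (le_max_right _ _)
    rw [norm_iteratedFDeriv_eq_norm_iteratedDeriv, iteratedDeriv_const]
    split_ifs <;> simp
  · rcases lt_or_ge 0 x with h2 | h2
    · have h1 : θ =ᶠ[𝓝 x] fun y => Real.exp (-1 * y) := by
        filter_upwards [Ioi_mem_nhds h2] with y hy
        have hy : 0 < y := hy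
        rw [θ, Real.smoothTransition.one_of_one_le (by linarith), mul_one]
      rw [(h1.iteratedFDeriv ℝ n).eq_of_nhds]
      refine le_trans ?_ (le_max_right _ _)
      rw [norm_iteratedFDeriv_eq_norm_iteratedDeriv, iteratedDeriv_exp_const_mul]
      rw [norm_mul, norm_pow, norm_neg, norm_one, one_pow, one_mul, Real.norm_eq_abs,
        Real.abs_exp]
      rw [Real.exp_le_one_iff]
      linarith
    · have h3 := hC x ⟨by linarith, by linarith⟩
      rw [norm_norm] at h3
      exact h3.trans (le_max_left _ _)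

noncomputable def ee (y : ℝ) : ℂ := Complex.exp (-(Complex.I * y))

theorem ee_contDiff : ContDiff ℝ ∞ ee := by
  unfold ee
  exact Complex.contDiff_exp.comp ((contDiff_const.mul Complex.ofRealCLM.contDiff).neg)

theorem ee_hasDeriv (c : ℂ) (y : ℝ) :
    HasDerivAt (fun y => c * ee y) ((c * (-Complex.I)) * ee y) y := by
  have h1 : HasDerivAt (fun y : ℝ => -(Complex.I * (y : ℂ))) (-Complex.I) y := by
    have := ((Complex.ofRealCLM.hasDerivAt (x := y)).const_mul Complex.I).neg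
    simp only [Complex.ofRealCLM_apply, Complex.ofReal_one, mul_one] at this
    exact this
  have h2 := (h1.cexp).const_mul c
  have h3 : c * (Complex.exp (-(Complex.I * (y : ℂ))) * -Complex.I)
      = (c * (-Complex.I)) * ee y := by
    unfold ee
    ring
  rw [h3] at h2
  exact h2

theorem ee_iter (n : ℕ) : iteratedDeriv n ee = fun y => (-Complex.I) ^ n * ee y := by
  induction n with
  | zero => simp
  | succ n ih =>
    rw [iteratedDeriv_succ, ih]
    funext y
    rw [(ee_hasDeriv ((-Complex.I) ^ n) y).deriv, pow_succ]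

theorem norm_ee (y : ℝ) : ‖ee y‖ = 1 := by
  unfold ee
  rw [Complex.norm_exp]
  simp

theorem ee_bdd (n : ℕ) (y : ℝ) : ‖iteratedFDeriv ℝ n ee y‖ ≤ 1 := by
  rw [norm_iteratedFDeriv_eq_norm_iteratedDeriv, ee_iter]
  simp [norm_ee]

theorem comp_bdd {F G : Type} [NormedAddCommGroup F] [NormedSpace ℝ F]
    [NormedAddCommGroup G] [NormedSpace ℝ G] (f : ℝ → F) (hf : ContDiff ℝ ∞ f)
    (L : G →L[ℝ] ℝ) (hL : ‖L‖ ≤ 1) (n : ℕ) (C : ℝ) (hC : ∀ x, ‖iteratedFDeriv ℝ n f x‖ ≤ C)
    (z : G) : ‖iteratedFDeriv ℝ n (fun z => f (L z)) z‖ ≤ C := by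
  have h := L.iteratedFDeriv_comp_right hf z (i := n) (by exact_mod_cast le_top)
  have h' : iteratedFDeriv ℝ n (fun z => f (L z)) z = iteratedFDeriv ℝ n (f ∘ L) z := rfl
  rw [h', h]
  refine (ContinuousMultilinearMap.norm_compContinuousLinearMap_le _ _).trans ?_
  have h1 : ∏ i : Fin n, ‖(fun _ : Fin n => L) i‖ ≤ 1 := by
    apply Finset.prod_le_one
    · intro i _; exact norm_nonneg _
    · intro i _; exact hL
  calc ‖iteratedFDeriv ℝ n f (L z)‖ * ∏ i : Fin n, ‖(fun _ : Fin n => L) i‖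
      ≤ ‖iteratedFDeriv ℝ n f (L z)‖ * 1 := by gcongr
    _ ≤ C := by rw [mul_one]; exact hC _

noncomputable def E (z : ℂ) : ℂ := θ (Complex.reCLM z) • ee (Complex.imCLM z)

theorem E_contDiff : ContDiff ℝ ∞ E :=
  (θ_contDiff.comp Complex.reCLM.contDiff).smul (ee_contDiff.comp Complex.imCLM.contDiff)

theorem E_bdd (n : ℕ) : ∃ C : ℝ, ∀ z, ‖iteratedFDeriv ℝ n E z‖ ≤ C := by
  choose C hC using θ_bdd
  refine ⟨∑ i ∈ Finset.range (n + 1), (n.choose i : ℝ) * C i * 1, fun z => ?_⟩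
  refine (norm_iteratedFDeriv_smul_le (f := fun z : ℂ => θ (Complex.reCLM z))
    (g := fun z : ℂ => ee (Complex.imCLM z)) (θ_contDiff.comp Complex.reCLM.contDiff)
    (ee_contDiff.comp Complex.imCLM.contDiff) z (n := n) (by exact_mod_cast le_top)).trans ?_
  apply Finset.sum_le_sum
  intro i _
  have h1 := comp_bdd θ θ_contDiff Complex.reCLM (by rw [Complex.reCLM_norm]) i (C i) (hC i) z
  have h2 := comp_bdd ee ee_contDiff Complex.imCLM (by rw [Complex.imCLM_norm]) (n - i) 1
    (ee_bdd (n - i)) z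
  have h3 : 0 ≤ C i := (norm_nonneg _).trans (hC i 0)
  gcongr

theorem E_eq (z : ℂ) (hz : 0 < z.re) : E z = Complex.exp (-z) := by
  unfold E θ ee
  rw [Complex.reCLM_apply, Complex.imCLM_apply,
    Real.smoothTransition.one_of_one_le (by linarith), mul_one, Complex.real_smul,
    Complex.ofReal_exp, ← Complex.exp_add]
  congr 1
  apply Complex.ext <;> simp

/-! ### the flat function -/

noncomputable def term (k : ℕ) (z : ℂ) : ℂ := a k • E ((2:ℝ) ^ k • z)

theorem smul_contDiff (c : ℝ) : ContDiff ℝ ∞ (fun z : ℂ => c • z) := by fun_prop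

theorem term_contDiff (k : ℕ) : ContDiff ℝ ∞ (term k) :=
  (contDiff_const (c := a k)).smul (E_contDiff.comp (smul_contDiff ((2:ℝ) ^ k)))

theorem term_iter (k n : ℕ) (z : ℂ) :
    iteratedFDeriv ℝ n (term k) z
      = (a k * (2 ^ n) ^ k) • iteratedFDeriv ℝ n E ((2:ℝ) ^ k • z) := by
  have h0 : ContDiff ℝ ∞ (fun z : ℂ => E ((2:ℝ) ^ k • z)) :=
    E_contDiff.comp (smul_contDiff _)
  have h1 : iteratedFDeriv ℝ n (term k) z
      = a k • iteratedFDeriv ℝ n (fun z : ℂ => E ((2:ℝ) ^ k • z)) z :=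
    iteratedFDeriv_const_smul_apply' ((h0.of_le (by exact_mod_cast le_top)).contDiffAt)
  have h2 := iteratedFDeriv_comp_const_smul (i := n) ((2:ℝ) ^ k)
    (E_contDiff.of_le (by exact_mod_cast le_top))
  rw [h1, h2, smul_smul]
  congr 1
  rw [← pow_mul, ← pow_mul, Nat.mul_comm]

noncomputable def H (z : ℂ) : ℂ := ∑' k, term k z

theorem term_bdd (n : ℕ) : ∃ C : ℝ, ∀ (k : ℕ) (z : ℂ),
    ‖iteratedFDeriv ℝ n (term k) z‖ ≤ |a k| * (2 ^ n) ^ k * C := by
  obtain ⟨C, hC⟩ := E_bdd n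
  refine ⟨C, fun k z => ?_⟩
  rw [term_iter, norm_smul, Real.norm_eq_abs, abs_mul, abs_of_pos (a := ((2:ℝ) ^ n) ^ k)
    (by positivity)]
  gcongr
  exact hC _

theorem H_contDiff : ContDiff ℝ ∞ H := by
  choose C hC using term_bdd
  exact contDiff_tsum (𝕜 := ℝ) (f := term) (N := ⊤)
    (v := fun n k => |a k| * (2 ^ n) ^ k * C n) term_contDiff
    (fun n _ => (summable_abs (2 ^ n) (by positivity)).mul_right _)
    (fun n k z _ => hC n k z)

theorem H_iter (n : ℕ) (z : ℂ) :
    iteratedFDeriv ℝ n H z = ∑' k, iteratedFDeriv ℝ n (term k) z := by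
  choose C hC using term_bdd
  exact iteratedFDeriv_tsum_apply (𝕜 := ℝ) (f := term) (N := ⊤)
    (v := fun n k => |a k| * (2 ^ n) ^ k * C n) term_contDiff
    (fun n _ => (summable_abs (2 ^ n) (by positivity)).mul_right _)
    (fun n k z _ => hC n k z) (k := n) le_top z

theorem H_flat (n : ℕ) : iteratedFDeriv ℝ n H 0 = 0 := by
  rw [H_iter]
  have h : ∀ k, iteratedFDeriv ℝ n (term k) 0
      = (a k * (2 ^ n) ^ k) • iteratedFDeriv ℝ n E 0 := by
    intro k
    rw [term_iter, smul_zero]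
  rw [tsum_congr h, (summable_a (2 ^ n) (by positivity)).tsum_smul_const]
  have := A_pow n
  unfold A at this
  rw [this, zero_smul]

theorem H_bdd (n : ℕ) : ∃ C : ℝ, ∀ z, ‖iteratedFDeriv ℝ n H z‖ ≤ C := by
  obtain ⟨C, hC⟩ := term_bdd n
  refine ⟨∑' k, |a k| * (2 ^ n) ^ k * C, fun z => ?_⟩
  rw [H_iter]
  exact tsum_of_norm_bounded
    ((summable_abs (2 ^ n) (by positivity)).mul_right C).hasSum (fun k => hC k z)

theorem H_eq {z : ℂ} (hz : 0 < z.re) :
    H z = ∑' k, (a k : ℂ) * Complex.exp (-(((2:ℝ) ^ k : ℝ) * z)) := by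
  unfold H term
  apply tsum_congr
  intro k
  rw [E_eq _ (by
    rw [Complex.smul_re, smul_eq_mul]
    positivity), Complex.real_smul, Complex.real_smul]

theorem H_diff : DifferentiableOn ℂ H {z | 0 < z.re} := by
  have h1 : DifferentiableOn ℂ
      (fun z => ∑' k, (a k : ℂ) * Complex.exp (-(((2:ℝ) ^ k : ℝ) * z))) {z | 0 < z.re} := by
    refine Complex.differentiableOn_tsum_of_summable_norm (u := fun k => |a k| * 1 ^ k)
      (summable_abs 1 one_pos) ?_ (isOpen_lt continuous_const Complex.continuous_re) ?_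
    · intro k
      fun_prop
    · intro k z hz
      have hz : 0 < z.re := hz
      rw [norm_mul, Complex.norm_real, Real.norm_eq_abs, Complex.norm_exp, one_pow]
      gcongr
      rw [Real.exp_le_one_iff, Complex.neg_re, Complex.re_ofReal_mul]
      have : 0 ≤ (2:ℝ) ^ k * z.re := by positivity
      linarith
  exact h1.congr fun z hz => H_eq hz

theorem H_ne : ∃ R : ℝ, 0 < R ∧ H R ≠ 0 := by
  -- `H x = e^{-x} + O(e^{-2x})`
  set S : ℝ := ∑' k, |a (k + 1)| with hS
  have hsum0 : Summable (fun k => |a k| * (1:ℝ) ^ k) := summable_abs 1 one_pos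
  have hsum : Summable (fun k => |a k|) := by simpa using hsum0
  have hsum1 : Summable (fun k => |a (k + 1)|) := (summable_nat_add_iff 1).2 hsum
  have hS0 : 0 ≤ S := tsum_nonneg fun k => abs_nonneg _
  refine ⟨S + 1, by linarith, ?_⟩
  set x : ℝ := S + 1 with hx
  have hx0 : 0 < x := by linarith
  intro hcon
  rw [H_eq (by simpa using hx0)] at hcon
  have hn : ∀ k, ‖(a k : ℂ) * Complex.exp (-(((2:ℝ) ^ k : ℝ) * (x : ℂ)))‖
      = |a k| * Real.exp (-(2 ^ k * x)) := by
    intro k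
    rw [norm_mul, Complex.norm_real, Real.norm_eq_abs, Complex.norm_exp]
    congr 2
    rw [Complex.neg_re, Complex.re_ofReal_mul, Complex.ofReal_re]
  have hle : ∀ k, |a k| * Real.exp (-(2 ^ k * x)) ≤ |a k| := by
    intro k
    have : Real.exp (-(2 ^ k * x)) ≤ 1 := by
      rw [Real.exp_le_one_iff]
      have : 0 ≤ (2:ℝ) ^ k * x := by positivity
      linarith
    exact mul_le_of_le_one_right (abs_nonneg _) this
  have hs : Summable fun k => (a k : ℂ) * Complex.exp (-(((2:ℝ) ^ k : ℝ) * (x : ℂ))) := by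
    refine Summable.of_norm_bounded hsum fun k => ?_
    rw [hn]
    exact hle k
  rw [hs.tsum_eq_zero_add] at hcon
  have h1 : ‖∑' k, (a (k + 1) : ℂ) * Complex.exp (-(((2:ℝ) ^ (k + 1) : ℝ) * (x : ℂ)))‖
      ≤ S * Real.exp (-(2 * x)) := by
    have hh : HasSum (fun k => |a (k + 1)| * Real.exp (-(2 * x))) (S * Real.exp (-(2 * x))) :=
      hsum1.hasSum.mul_right _
    refine tsum_of_norm_bounded hh fun k => ?_
    rw [hn]
    gcongr
    have : (1:ℝ) ≤ 2 ^ k := one_le_pow₀ (by norm_num)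
    rw [pow_succ]
    nlinarith
  have h2 : ‖(a 0 : ℂ) * Complex.exp (-(((2:ℝ) ^ 0 : ℝ) * (x : ℂ)))‖ = Real.exp (-x) := by
    rw [hn]
    simp [a]
  have h3 : Real.exp (-x) ≤ S * Real.exp (-(2 * x)) := by
    rw [← h2, eq_neg_of_add_eq_zero_left hcon, norm_neg]
    exact h1
  have h4 : S < Real.exp x := by
    have := Real.add_one_le_exp x
    linarith
  have h5 : Real.exp (-(2 * x)) = Real.exp (-x) * Real.exp (-x) := by
    rw [← Real.exp_add]; congr 1; ring
  have h6 : S * Real.exp (-x) < 1 := by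
    have : Real.exp x * Real.exp (-x) = 1 := by rw [← Real.exp_add]; simp
    have h7 := Real.exp_pos (-x)
    nlinarith
  have h7 := Real.exp_pos (-x)
  rw [h5] at h3
  nlinarith

/-- There is a smooth function on `ℂ`, with bounded derivatives of each order, holomorphic on the right
half-plane, with all derivatives zero at `0`, and nonzero at `1`. -/
theorem exists_flat : ∃ H : ℂ → ℂ, ContDiff ℝ ∞ H ∧ DifferentiableOn ℂ H {z | 0 < z.re} ∧
    H 1 ≠ 0 ∧ (∀ n, iteratedFDeriv ℝ n H 0 = 0) ∧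
    (∀ n, ∃ C : ℝ, ∀ z, ‖iteratedFDeriv ℝ n H z‖ ≤ C) := by
  obtain ⟨R, hR, hne⟩ := H_ne
  have hc : ∀ n : ℕ, ContDiff ℝ n H := fun n => H_contDiff.of_le (by exact_mod_cast le_top)
  refine ⟨fun z => H (R • z), H_contDiff.comp (smul_contDiff R), ?_, ?_, ?_, ?_⟩
  · refine H_diff.comp (by fun_prop) ?_
    intro z hz
    have hz : 0 < z.re := hz
    show 0 < (R • z).re
    rw [Complex.smul_re, smul_eq_mul]
    positivity
  · show H (R • (1:ℂ)) ≠ 0
    rw [Complex.real_smul, mul_one]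
    exact hne
  · intro n
    rw [iteratedFDeriv_comp_const_smul R (hc n)]
    simp only [smul_zero, H_flat]
  · intro n
    obtain ⟨C, hC⟩ := H_bdd n
    refine ⟨|R ^ n| * C, fun z => ?_⟩
    rw [iteratedFDeriv_comp_const_smul R (hc n)]
    simp only
    rw [norm_smul, Real.norm_eq_abs]
    gcongr
    exact hC _

end Pool.Agent.H914R3.Flat
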