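import Mathlib
import Pool.Agent.H914R3.Flat

set_option autoImplicit false
open scoped ContDiff Topology
open Filter Set

namespace Pool.Agent.H914R3.Dom

variable {m : ℕ}

/-- Squared Euclidean norm on `ℂ^m`. -/
noncomputable def N2 (v : Fin m → ℂ) : ℝ := ∑ i, ‖v i‖ ^ 2

/-- `|w - c|² - 1 - K w`. -/
noncomputable def rho (c : Fin m → ℂ) (K : (Fin m → ℂ) → ℝ) (w : Fin m → ℂ) : ℝ :=
  (∑ i, ‖w i - c i‖ ^ 2) - 1 - K w

theorem N2_nonneg (v : Fin m → ℂ) : 0 ≤ N2 v := Finset.sum_nonneg fun _ _ => by positivity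

theorem N2_pos {v : Fin m → ℂ} (hv : v ≠ 0) : 0 < N2 v := by
  obtain ⟨i, hi⟩ := Function.ne_iff.1 hv
  refine Finset.sum_pos' (fun _ _ => by positivity) ⟨i, Finset.mem_univ i, ?_⟩
  have : 0 < ‖v i‖ := norm_pos_iff.2 hi
  positivity

theorem N2_I (v : Fin m → ℂ) : N2 (Complex.I • v) = N2 v := by
  unfold N2
  simp

theorem le_N2 (v : Fin m → ℂ) (i : Fin m) : ‖v i‖ ^ 2 ≤ N2 v :=
  Finset.single_le_sum (f := fun i => ‖v i‖ ^ 2) (fun _ _ => by positivity) (Finset.mem_univ i)

/-- The real derivative of `|w - c|²` as a linear function. -/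
noncomputable def dq (c w : Fin m → ℂ) : (Fin m → ℂ) →L[ℝ] ℝ :=
  ∑ i, 2 • (innerSL ℝ (w i - c i)).comp (ContinuousLinearMap.proj (R := ℝ) i)

theorem hasFDerivAt_q (c w : Fin m → ℂ) :
    HasFDerivAt (fun w : Fin m → ℂ => ∑ i, ‖w i - c i‖ ^ 2) (dq c w) w := by
  unfold dq
  apply HasFDerivAt.fun_sum
  intro i _
  have h1 : HasFDerivAt (fun w : Fin m → ℂ => w i - c i)
      (ContinuousLinearMap.proj (R := ℝ) (φ := fun _ : Fin m => ℂ) i) w :=
    (ContinuousLinearMap.proj (R := ℝ) (φ := fun _ : Fin m => ℂ) i).hasFDerivAt.sub_const _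
  exact h1.norm_sq

theorem dq_apply (c w v : Fin m → ℂ) : dq c w v = ∑ i, 2 * inner ℝ (w i - c i) (v i) := by
  unfold dq
  rw [_root_.sum_apply]
  apply Finset.sum_congr rfl
  intro i _
  rw [two_smul, two_mul]
  rfl

/-- The derivative of `dq`. -/
noncomputable def ddq : (Fin m → ℂ) →L[ℝ] (Fin m → ℂ) →L[ℝ] ℝ :=
  ∑ i, (2:ℝ) • (((ContinuousLinearMap.compL ℝ (Fin m → ℂ) ℂ ℝ).flip
    (ContinuousLinearMap.proj (R := ℝ) i)).comp (innerSL ℝ)).comp
      (ContinuousLinearMap.proj (R := ℝ) (φ := fun _ : Fin m => ℂ) i)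

theorem ddq_apply (v u : Fin m → ℂ) : ddq v u = ∑ i, 2 * inner ℝ (v i) (u i) := by
  unfold ddq
  rw [_root_.sum_apply, _root_.sum_apply]
  apply Finset.sum_congr rfl
  intro i _
  simp

theorem dq_eq (c w : Fin m → ℂ) : dq c w = ddq w - ddq c := by
  ext v
  rw [dq_apply, _root_.sub_apply, ddq_apply, ddq_apply, ← Finset.sum_sub_distrib]
  apply Finset.sum_congr rfl
  intro i _
  rw [inner_sub_left]
  ring

theorem hasFDerivAt_dq (c w : Fin m → ℂ) : HasFDerivAt (dq c) (ddq (m := m)) w := by
  have h : dq c = fun w => ddq w - ddq c := funext fun w => dq_eq c w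
  rw [h]
  exact (ddq (m := m)).hasFDerivAt.sub_const _

theorem ddq_self (v : Fin m → ℂ) : ddq v v = 2 * N2 v := by
  rw [ddq_apply, N2, Finset.mul_sum]
  apply Finset.sum_congr rfl
  intro i _
  rw [real_inner_self_eq_norm_sq]

theorem dq_self (c v : Fin m → ℂ) (s : ℝ) : dq c (c + s • v) v = 2 * s * N2 v := by
  rw [dq_apply, N2, Finset.mul_sum]
  apply Finset.sum_congr rfl
  intro i _
  have : (c + s • v) i - c i = s • v i := by simp
  rw [this, real_inner_smul_left, real_inner_self_eq_norm_sq]
  ring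

/-- Conditions on the perturbation. -/
structure Small (K : (Fin m → ℂ) → ℝ) : Prop where
  smooth : ContDiff ℝ ∞ K
  nonneg : ∀ w, 0 ≤ K w
  le_one : ∀ w, K w ≤ 1
  d1 : ∀ w v, (fderiv ℝ K w v) ^ 2 ≤ N2 v
  d2 : ∀ w v, fderiv ℝ (fderiv ℝ K) w v v ≤ N2 v

theorem smooth_rho (c : Fin m → ℂ) {K : (Fin m → ℂ) → ℝ} (hK : Small K) :
    ContDiff ℝ ∞ (rho c K) := by
  unfold rho
  refine ContDiff.sub (ContDiff.sub ?_ contDiff_const) hK.smooth
  apply ContDiff.sum
  intro i _
  exact ((contDiff_apply ℝ ℂ i).sub contDiff_const).norm_sq ℝ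

theorem fderiv_rho (c : Fin m → ℂ) {K : (Fin m → ℂ) → ℝ} (hK : Small K) :
    fderiv ℝ (rho c K) = fun w => dq c w - fderiv ℝ K w := by
  funext w
  have hd : DifferentiableAt ℝ K w :=
    (hK.smooth.differentiable (by simp)).differentiableAt
  exact (((hasFDerivAt_q c w).sub_const 1).sub hd.hasFDerivAt).fderiv

theorem fderiv2_rho (c : Fin m → ℂ) {K : (Fin m → ℂ) → ℝ} (hK : Small K) (w v : Fin m → ℂ) :
    fderiv ℝ (fderiv ℝ (rho c K)) w v v = 2 * N2 v - fderiv ℝ (fderiv ℝ K) w v v := by
  rw [fderiv_rho c hK]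
  have hd : DifferentiableAt ℝ (fderiv ℝ K) w :=
    ((hK.smooth.fderiv_right (m := 1) (by norm_cast)).differentiable
      (by simp)).differentiableAt
  have h := ((hasFDerivAt_dq c w).sub hd.hasFDerivAt).fderiv
  have h' : fderiv ℝ (fun w => dq c w - fderiv ℝ K w) w = ddq - fderiv ℝ (fderiv ℝ K) w := h
  rw [h', _root_.sub_apply, _root_.sub_apply, ddq_self]

theorem dom (c : Fin m → ℂ) {K : (Fin m → ℂ) → ℝ} (hK : Small K) :
    (IsOpen {w | rho c K w < 0} ∧ IsConnected {w | rho c K w < 0} ∧
      Bornology.IsBounded {w | rho c K w < 0} ∧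
    ∃ ρ : (Fin m → ℂ) → ℝ, ContDiff ℝ ∞ ρ ∧ {w | rho c K w < 0} = {z | ρ z < 0} ∧
      ∀ z ∈ frontier {w | rho c K w < 0}, fderiv ℝ ρ z ≠ 0 ∧
        ∀ v : Fin m → ℂ, v ≠ 0 → fderiv ℝ ρ z v = 0 →
          fderiv ℝ ρ z (Complex.I • v) = 0 →
          0 < fderiv ℝ (fderiv ℝ ρ) z v v
              + fderiv ℝ (fderiv ℝ ρ) z (Complex.I • v) (Complex.I • v)) := by
  have hs := smooth_rho c hK
  have hcont : Continuous (rho c K) := hs.continuous
  refine ⟨isOpen_lt hcont continuous_const, ?_, ?_, rho c K, hs, rfl, ?_⟩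
  · -- star-shaped about `c`
    have hc : rho c K c < 0 := by
      have := hK.nonneg c
      simp only [rho, sub_self, norm_zero]
      simp
      linarith
    have hstar : StarConvex ℝ c {w | rho c K w < 0} := by
      rw [starConvex_iff_segment_subset]
      intro w hw x hx
      rw [segment_eq_image'] at hx
      obtain ⟨t, ⟨ht0, ht1⟩, rfl⟩ := hx
      have hw : rho c K w < 0 := hw
      show rho c K (c + t • (w - c)) < 0
      set v := w - c with hv
      have hg : ∀ s : ℝ, rho c K (c + s • v) = s ^ 2 * N2 v - 1 - K (c + s • v) := by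
        intro s
        unfold rho N2
        rw [Finset.mul_sum]
        congr 2
        apply Finset.sum_congr rfl
        intro i _
        have : (c + s • v) i - c i = s • v i := by simp
        rw [this, norm_smul, mul_pow, Real.norm_eq_abs, sq_abs]
      by_contra hcon
      have hcon : 0 ≤ rho c K (c + t • v) := not_lt.1 hcon
      have h1 : 1 ≤ t ^ 2 * N2 v := by
        have := hK.nonneg (c + t • v)
        rw [hg] at hcon
        linarith
      have hNpos : 0 < N2 v := by
        by_contra h
        have : N2 v = 0 := le_antisymm (not_lt.1 h) (N2_nonneg v)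
        rw [this] at h1
        linarith
      have htpos : 0 < t := by
        rcases ht0.lt_or_eq with h | h
        · exact h
        · rw [← h] at h1
          norm_num at h1
      have hder : ∀ s : ℝ, HasDerivAt (fun s : ℝ => rho c K (c + s • v))
          (2 * s * N2 v - fderiv ℝ K (c + s • v) v) s := by
        intro s
        have h2 : HasFDerivAt (rho c K) (fderiv ℝ (rho c K) (c + s • v)) (c + s • v) :=
          (hs.differentiable (by simp)).differentiableAt.hasFDerivAt
        have h3 : HasDerivAt (fun s : ℝ => c + s • v) v s := by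
          have := ((hasDerivAt_id s).smul_const v).const_add c
          simpa using this
        have h4 := h2.comp_hasDerivAt s h3
        rw [fderiv_rho c hK] at h4
        simp only [_root_.sub_apply, dq_self] at h4
        exact h4
      have hmono : MonotoneOn (fun s : ℝ => rho c K (c + s • v)) (Icc t 1) := by
        apply monotoneOn_of_deriv_nonneg (convex_Icc t 1)
        · exact (fun s _ => (hder s).continuousAt.continuousWithinAt)
        · exact fun s _ => (hder s).differentiableAt.differentiableWithinAt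
        · intro s hs'
          rw [interior_Icc] at hs'
          rw [(hder s).deriv]
          have h5 : 1 ≤ s ^ 2 * N2 v := by
            have : t ^ 2 ≤ s ^ 2 := by
              have := hs'.1
              gcongr
            nlinarith
          have h6 := hK.d1 (c + s • v) v
          have h7 : 0 < s := htpos.trans hs'.1
          have h8 : (fderiv ℝ K (c + s • v) v) ≤ 2 * s * N2 v := by
            apply le_of_sq_le_sq _ (by positivity)
            nlinarith
          linarith
      have h9 := hmono (left_mem_Icc.2 ht1) (right_mem_Icc.2 ht1) ht1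
      simp only [one_smul] at h9
      have h10 : c + v = w := by rw [hv]; abel
      rw [h10] at h9
      linarith
    exact (hstar.isPathConnected hc).isConnected
  · rw [isBounded_iff_forall_norm_le]
    refine ⟨‖c‖ + 2, fun w hw => ?_⟩
    have hw : rho c K w < 0 := hw
    have h1 : N2 (w - c) < 2 := by
      have := hK.le_one w
      unfold rho at hw
      unfold N2
      simp only [Pi.sub_apply]
      linarith
    have h2 : ‖w - c‖ ≤ 2 := by
      rw [pi_norm_le_iff_of_nonneg (by norm_num)]
      intro i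
      have := le_N2 (w - c) i
      have h3 := norm_nonneg ((w - c) i)
      nlinarith
    calc ‖w‖ = ‖c + (w - c)‖ := by congr 1; abel
      _ ≤ ‖c‖ + ‖w - c‖ := norm_add_le _ _
      _ ≤ ‖c‖ + 2 := by linarith
  · intro z hz
    have hz0 : rho c K z = 0 := by
      have h1 : frontier {w | rho c K w < 0} ⊆ {w | rho c K w = 0} := by
        have := frontier_lt_subset_eq hcont (continuous_const (y := (0:ℝ)))
        exact this
      exact h1 hz
    constructor
    · intro hcon
      have h1 : fderiv ℝ (rho c K) z (z - c) = 0 := by rw [hcon]; rfl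
      rw [fderiv_rho c hK] at h1
      simp only [_root_.sub_apply] at h1
      have h2 : dq c z (z - c) = 2 * N2 (z - c) := by
        have := dq_self c (z - c) 1
        rw [one_smul] at this
        have h10 : c + (z - c) = z := by abel
        rw [h10] at this
        linarith
      have h3 : 1 ≤ N2 (z - c) := by
        have := hK.nonneg z
        unfold rho at hz0
        unfold N2
        simp only [Pi.sub_apply]
        linarith
      have h4 := hK.d1 z (z - c)
      rw [h2] at h1
      nlinarith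
    · intro v hv _ _
      rw [fderiv2_rho c hK, fderiv2_rho c hK, N2_I]
      have h1 := hK.d2 z v
      have h2 := hK.d2 z (Complex.I • v)
      rw [N2_I] at h2
      have h3 := N2_pos hv
      linarith

end Pool.Agent.H914R3.Dom
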