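import Mathlib
import Pool.Agent.H914R3.Flat
import Pool.Agent.H914R3.Dom

set_option autoImplicit false
open scoped ContDiff Topology
open Filter Set

namespace Pool.Agent.H914R3.Maps

open Pool.Agent.H914R3.Dom

/-- A flat holomorphic function with small squared norm. -/
theorem exists_small : ∃ H : ℂ → ℂ, ContDiff ℝ ∞ H ∧ DifferentiableOn ℂ H {z | 0 < z.re} ∧
    H 1 ≠ 0 ∧ (∀ n, iteratedFDeriv ℝ n H 0 = 0) ∧
    (∀ n ≤ 2, ∀ z, ‖iteratedFDeriv ℝ n (fun z => ‖H z‖ ^ 2) z‖ ≤ 1) := by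
  obtain ⟨H, h1, h2, h3, h4, h5⟩ := Flat.exists_flat
  -- bound for the derivatives of the squared norm
  have hk : ∀ n, ∃ C : ℝ, ∀ z, ‖iteratedFDeriv ℝ n (fun z => ‖H z‖ ^ 2) z‖ ≤ C := by
    intro n
    choose C hC using h5
    refine ⟨∑ i ∈ Finset.range (n + 1), (n.choose i : ℝ) * C i * C (n - i), fun z => ?_⟩
    have he : (fun z => ‖H z‖ ^ 2) = fun z => (innerSL ℝ (H z)) (H z) := by
      funext z
      rw [innerSL_apply_apply, real_inner_self_eq_norm_sq]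
    rw [he]
    refine ((innerSL ℝ (E := ℂ)).norm_iteratedFDeriv_le_of_bilinear_of_le_one h1 h1 z (n := n)
      (by exact_mod_cast le_top) (norm_innerSL_le ℝ)).trans ?_
    apply Finset.sum_le_sum
    intro i _
    have h6 := hC i z
    have h7 := hC (n - i) z
    have h8 : 0 ≤ C i := (norm_nonneg _).trans (hC i 0)
    gcongr
  choose D hD using hk
  set M : ℝ := 1 + |D 0| + |D 1| + |D 2| with hM
  have hM1 : 1 ≤ M := by
    have := abs_nonneg (D 0)
    have := abs_nonneg (D 1)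
    have := abs_nonneg (D 2)
    linarith
  have hMD : ∀ n ≤ 2, D n ≤ M := by
    intro n hn
    have e0 := abs_nonneg (D 0)
    have e1 := abs_nonneg (D 1)
    have e2 := abs_nonneg (D 2)
    have f0 := le_abs_self (D 0)
    have f1 := le_abs_self (D 1)
    have f2 := le_abs_self (D 2)
    interval_cases n <;> linarith
  have hc : ∀ n : ℕ, ContDiff ℝ n H := fun n => h1.of_le (by exact_mod_cast le_top)
  refine ⟨fun z => M⁻¹ • H z, (contDiff_const (c := M⁻¹)).smul h1, h2.fun_const_smul M⁻¹, ?_, ?_, ?_⟩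
  · exact smul_ne_zero (inv_ne_zero (by linarith)) h3
  · intro n
    rw [iteratedFDeriv_const_smul_apply' (hc n).contDiffAt, h4, smul_zero]
  · intro n hn z
    have he : (fun z => ‖M⁻¹ • H z‖ ^ 2) = fun z => (M⁻¹ ^ 2) • ‖H z‖ ^ 2 := by
      funext z
      rw [norm_smul, mul_pow, Real.norm_eq_abs, sq_abs, smul_eq_mul]
    rw [he, iteratedFDeriv_const_smul_apply' (((hc n).norm_sq ℝ).contDiffAt), norm_smul,
      Real.norm_eq_abs, abs_of_nonneg (by positivity)]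
    have h6 : ‖iteratedFDeriv ℝ n (fun z => ‖H z‖ ^ 2) z‖ ≤ M := (hD n z).trans (hMD n hn)
    calc M⁻¹ ^ 2 * ‖iteratedFDeriv ℝ n (fun z => ‖H z‖ ^ 2) z‖ ≤ M⁻¹ ^ 2 * M := by gcongr
      _ = M⁻¹ := by field_simp
      _ ≤ 1 := inv_le_one_of_one_le₀ hM1

/-- The perturbation `K w = |H (w_0)|²` is admissible. -/
theorem small_of {m : ℕ} (i : Fin m) {H : ℂ → ℂ} (h1 : ContDiff ℝ ∞ H)
    (h5 : ∀ n ≤ 2, ∀ z, ‖iteratedFDeriv ℝ n (fun z => ‖H z‖ ^ 2) z‖ ≤ 1) :
    Small (fun w : Fin m → ℂ => ‖H (w i)‖ ^ 2) := by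
  set k : ℂ → ℝ := fun z => ‖H z‖ ^ 2 with hk
  have hks : ContDiff ℝ ∞ k := h1.norm_sq ℝ
  have hK : (fun w : Fin m → ℂ => ‖H (w i)‖ ^ 2)
      = fun w => k (ContinuousLinearMap.proj (R := ℝ) (φ := fun _ : Fin m => ℂ) i w) := rfl
  set P := ContinuousLinearMap.proj (R := ℝ) (φ := fun _ : Fin m => ℂ) i with hP
  have hPa : ∀ v : Fin m → ℂ, P v = v i := fun v => rfl
  have hfd : fderiv ℝ (fun w : Fin m → ℂ => k (P w)) = fun w => (fderiv ℝ k (P w)).comp P := by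
    funext w
    exact (((hks.differentiable (by simp)) (P w)).hasFDerivAt.comp w P.hasFDerivAt).fderiv
  have hfd2 : ∀ w v : Fin m → ℂ, fderiv ℝ (fderiv ℝ (fun w : Fin m → ℂ => k (P w))) w v v
      = fderiv ℝ (fderiv ℝ k) (P w) (P v) (P v) := by
    intro w v
    rw [hfd]
    have hd : DifferentiableAt ℝ (fderiv ℝ k) (P w) :=
      ((hks.fderiv_right (m := 1) (by norm_cast)).differentiable (by simp)).differentiableAt
    have h6 : HasFDerivAt (fun w => fderiv ℝ k (P w)) ((fderiv ℝ (fderiv ℝ k) (P w)).comp P) w :=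
      hd.hasFDerivAt.comp w P.hasFDerivAt
    have h7 : HasFDerivAt (fun w => (fderiv ℝ k (P w)).comp P)
        ((((ContinuousLinearMap.compL ℝ (Fin m → ℂ) ℂ ℝ).flip P)).comp
          ((fderiv ℝ (fderiv ℝ k) (P w)).comp P)) w :=
      ((ContinuousLinearMap.compL ℝ (Fin m → ℂ) ℂ ℝ).flip P).hasFDerivAt.comp w h6
    rw [h7.fderiv]
    rfl
  constructor
  · exact hks.comp P.contDiff
  · intro w; positivity
  · intro w
    have := h5 0 (by norm_num) (w i)
    rw [norm_iteratedFDeriv_zero] at this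
    exact (le_abs_self _).trans this
  · intro w v
    rw [hK, hfd, ContinuousLinearMap.comp_apply]
    have h6 := h5 1 (by norm_num) (P w)
    rw [norm_iteratedFDeriv_one] at h6
    have h7 : |fderiv ℝ k (P w) (P v)| ≤ ‖v i‖ := by
      have := (fderiv ℝ k (P w)).le_opNorm (P v)
      rw [Real.norm_eq_abs] at this
      refine this.trans ?_
      rw [hPa v]
      exact mul_le_of_le_one_left (norm_nonneg _) h6
    calc (fderiv ℝ k (P w) (P v)) ^ 2 = |fderiv ℝ k (P w) (P v)| ^ 2 := (sq_abs _).symm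
      _ ≤ ‖v i‖ ^ 2 := by gcongr
      _ ≤ N2 v := le_N2 v i
  · intro w v
    rw [hK, hfd2]
    have h6 := h5 2 (by norm_num) (P w)
    have h6' : ‖fderiv ℝ (fderiv ℝ k) (P w)‖ ≤ 1 := by
      rw [← norm_iteratedFDeriv_one, norm_iteratedFDeriv_fderiv]
      exact h6
    have h7 : ‖fderiv ℝ (fderiv ℝ k) (P w) (P v) (P v)‖ ≤ ‖v i‖ * ‖v i‖ := by
      refine ((fderiv ℝ (fderiv ℝ k) (P w)).le_opNorm₂ (P v) (P v)).trans ?_
      rw [hPa v]
      calc ‖fderiv ℝ (fderiv ℝ k) (P w)‖ * ‖v i‖ * ‖v i‖ ≤ 1 * ‖v i‖ * ‖v i‖ := by gcongr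
        _ = ‖v i‖ * ‖v i‖ := by ring
    calc fderiv ℝ (fderiv ℝ k) (P w) (P v) (P v)
        ≤ ‖fderiv ℝ (fderiv ℝ k) (P w) (P v) (P v)‖ := Real.le_norm_self _
      _ ≤ ‖v i‖ * ‖v i‖ := h7
      _ = ‖v i‖ ^ 2 := by ring
      _ ≤ N2 v := le_N2 v i

theorem small_zero {m : ℕ} : Small (fun _ : Fin m → ℂ => (0:ℝ)) := by
  constructor
  · exact contDiff_const
  · intro w; exact le_rfl
  · intro w; exact zero_le_one
  · intro w v
    have : fderiv ℝ (fun _ : Fin m → ℂ => (0:ℝ)) w = 0 := by simp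
    rw [this]
    simpa using N2_nonneg v
  · intro w v
    have : fderiv ℝ (fun _ : Fin m → ℂ => (0:ℝ)) = fun _ => 0 := by
      funext w; simp
    rw [this]
    simpa using N2_nonneg v

/-! ### the maps -/

/-- `z ↦ (z_0, z_1, s H(z_0))`. -/
noncomputable def F (H : ℂ → ℂ) (s : ℝ) (z : Fin 2 → ℂ) : Fin 3 → ℂ :=
  ![z 0, z 1, s • H (z 0)]

noncomputable def c2 : Fin 2 → ℂ := ![1, 0]
noncomputable def c3 : Fin 3 → ℂ := ![1, 0, 0]

theorem rho_F (H : ℂ → ℂ) {s : ℝ} (hs : s ^ 2 = 1) (z : Fin 2 → ℂ) :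
    rho c3 (fun w => ‖H (w 0)‖ ^ 2) (F H s z) = rho c2 (fun _ => 0) z := by
  unfold rho F c2 c3
  rw [Fin.sum_univ_three, Fin.sum_univ_two]
  simp only [Matrix.cons_val_zero, Matrix.cons_val_one, Matrix.cons_val, sub_zero]
  rw [norm_smul, mul_pow, Real.norm_eq_abs, sq_abs, hs]
  ring

theorem F_smooth {H : ℂ → ℂ} (h1 : ContDiff ℝ ∞ H) (s : ℝ) : ContDiff ℝ ∞ (F H s) := by
  rw [contDiff_pi]
  intro i
  fin_cases i
  · exact contDiff_apply ℝ ℂ 0
  · exact contDiff_apply ℝ ℂ 1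
  · have hp : ContDiff ℝ ∞ (fun z : Fin 2 → ℂ => z 0) := contDiff_apply ℝ ℂ (0 : Fin 2)
    exact (contDiff_const (c := s)).smul (h1.comp hp)

theorem re_pos {z : Fin 2 → ℂ} (hz : rho c2 (fun _ => 0) z < 0) : 0 < (z 0).re := by
  unfold rho c2 at hz
  rw [Fin.sum_univ_two] at hz
  simp only [Matrix.cons_val_zero, Matrix.cons_val_one, sub_zero] at hz
  have h1 : ‖z 0 - 1‖ ^ 2 < 1 := by
    have := sq_nonneg ‖z 1‖
    linarith
  have h2 : |(z 0 - 1).re| ≤ ‖z 0 - 1‖ := Complex.abs_re_le_norm _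
  have h3 : ‖z 0 - 1‖ < 1 := by
    have := norm_nonneg (z 0 - 1)
    nlinarith
  have h4 := (abs_lt.1 (h2.trans_lt h3)).1
  simp only [Complex.sub_re, Complex.one_re] at h4
  linarith

theorem F_diff {H : ℂ → ℂ} (h2 : DifferentiableOn ℂ H {z | 0 < z.re}) (s : ℝ) :
    DifferentiableOn ℂ (F H s) {z | rho c2 (fun _ => 0) z < 0} := by
  rw [differentiableOn_pi]
  intro i
  have hp : ∀ i : Fin 2, Differentiable ℂ (fun z : Fin 2 → ℂ => z i) := fun i => by fun_prop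
  fin_cases i
  · exact (hp 0).differentiableOn
  · exact (hp 1).differentiableOn
  · have h3 : DifferentiableOn ℂ (fun z : Fin 2 → ℂ => H (z 0)) {z | rho c2 (fun _ => 0) z < 0} :=
      h2.comp (hp 0).differentiableOn fun z hz => re_pos hz
    exact h3.const_smul s

theorem F_jet {H : ℂ → ℂ} (h1 : ContDiff ℝ ∞ H) (h4 : ∀ n, iteratedFDeriv ℝ n H 0 = 0)
    (n : ℕ) : iteratedFDeriv ℝ n (F H (-1)) 0 = iteratedFDeriv ℝ n (F H 1) 0 := by
  set P := ContinuousLinearMap.proj (R := ℝ) (φ := fun _ : Fin 2 => ℂ) 0 with hP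
  set L : ℂ →L[ℝ] (Fin 3 → ℂ) :=
    (-2:ℝ) • ContinuousLinearMap.single ℝ (fun _ : Fin 3 => ℂ) 2 with hL
  have hadd : F H (-1) = F H 1 + (L ∘ (H ∘ P)) := by
    funext z
    funext i
    fin_cases i
    · simp [F, hL, hP]
    · simp [F, hL, hP]
    · simp [F, hL, hP]
      ring
  have hc : ContDiff ℝ n (H ∘ P) := (h1.of_le (by exact_mod_cast le_top)).comp P.contDiff
  have hF : ContDiff ℝ n (F H 1) := (F_smooth h1 1).of_le (by exact_mod_cast le_top)
  rw [hadd, iteratedFDeriv_add_apply hF.contDiffAt (L.contDiff.comp hc).contDiffAt]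
  have h5 : iteratedFDeriv ℝ n (L ∘ (H ∘ P)) 0 = 0 := by
    rw [L.iteratedFDeriv_comp_left hc.contDiffAt le_rfl,
      P.iteratedFDeriv_comp_right (h1.of_le (m := n) (by exact_mod_cast le_top)) 0 le_rfl]
    have : P 0 = 0 := map_zero P
    rw [this, h4]
    ext v
    simp
  rw [h5, add_zero]

theorem F_proper {H : ℂ → ℂ} (h1 : ContDiff ℝ ∞ H) {s : ℝ} (hs : s ^ 2 = 1)
    (K : Set (Fin 3 → ℂ)) (hK : IsCompact K)
    (hK2 : K ⊆ {w | rho c3 (fun w => ‖H (w 0)‖ ^ 2) w < 0})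
    (hb : Bornology.IsBounded {z | rho c2 (fun _ => 0) z < 0}) :
    IsCompact ({z | rho c2 (fun _ => 0) z < 0} ∩ F H s ⁻¹' K) := by
  have he : {z | rho c2 (fun _ => 0) z < 0} ∩ F H s ⁻¹' K = F H s ⁻¹' K := by
    apply Set.inter_eq_right.2
    intro z hz
    have h2 : rho c3 (fun w => ‖H (w 0)‖ ^ 2) (F H s z) < 0 := hK2 hz
    rw [rho_F H hs] at h2
    exact h2
  rw [he]
  refine Metric.isCompact_of_isClosed_isBounded (hK.isClosed.preimage (F_smooth h1 s).continuous) ?_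
  rw [← he]
  exact hb.subset Set.inter_subset_left

theorem zero_mem_closure : (0 : Fin 2 → ℂ) ∈ closure {z | rho c2 (fun _ => 0) z < 0} := by
  have ht : Tendsto (fun t : ℝ => t • c2) (𝓝[>] 0) (𝓝 0) := by
    have h : Continuous fun t : ℝ => t • c2 := by fun_prop
    have h2 := (h.tendsto 0).mono_left (nhdsWithin_le_nhds (s := Ioi (0:ℝ)))
    rwa [zero_smul] at h2
  apply mem_closure_of_tendsto ht
  have h1 : Ioo (0:ℝ) 1 ∈ 𝓝[>] (0:ℝ) := Ioo_mem_nhdsGT one_pos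
  filter_upwards [h1] with t ht
  show rho c2 (fun _ => 0) (t • c2) < 0
  unfold rho c2
  rw [Fin.sum_univ_two]
  simp only [Pi.smul_apply, Matrix.cons_val_zero, Matrix.cons_val_one, smul_zero, sub_zero,
    norm_zero, Complex.real_smul, mul_one]
  have h2 : ‖(t:ℂ) - 1‖ = 1 - t := by
    have : (t:ℂ) - 1 = ((t - 1 : ℝ) : ℂ) := by push_cast; ring
    rw [this, Complex.norm_real, Real.norm_eq_abs, abs_of_neg (by linarith [ht.2])]
    ring
  rw [h2]
  have := ht.1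
  have := ht.2
  nlinarith

end Pool.Agent.H914R3.Maps
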